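import Mathlib

/-!
# Trees whose total dominator chromatic number exceeds the total domination number by one

A structural characterisation, by a labelling of the vertices with local rules, of the trees `T` with
`χ_td(T) = γ_t(T) + 1`.

The labels come from a colouring as follows. Let `X` be the set of the vertices `s` such that `{s}`
is a colour class (label `b = S`), and `U` the set of the vertices without neighbour in `X` (label
`a = U`); the colour classes which are not singletons are the neighbourhoods of the vertices of `U`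
(label `b = D`), and one more colour class contains the remaining vertices (label `b = R`). The
vertices with `a = U` or `a = Q` form an open packing (no vertex has two neighbours among them), with
as many vertices as there are colours without the last one: it shows that `γ_t(T)` is this number.
If all the colours are needed (no free class), the two sides of the bipartition of the tree are
treated separately, and one side is recoloured.
-/

set_option autoImplicit false

namespace Pool.Agent.Results.MP_03797a_co.GammaPlusOne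

open Finset
open scoped Classical

variable {V : Type*}

/-- A total dominating set of `G`: every vertex has a neighbour in `S`. -/
def TDSet (G : SimpleGraph V) (S : Finset V) : Prop := ∀ v, ∃ s ∈ S, G.Adj v s

/-- The total domination number `γ_t(G)`: the minimum size of a total dominating set. -/
noncomputable def gammaT (G : SimpleGraph V) : ℕ :=
  sInf {n | ∃ S : Finset V, TDSet G S ∧ S.card = n}

/-- A total dominator colouring of `G`: a proper colouring in which every vertex `v` is adjacent to
all the vertices of some (nonempty) colour class. -/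
def TDColoring (G : SimpleGraph V) {k : ℕ} (c : V → Fin k) : Prop :=
  (∀ u v, G.Adj u v → c u ≠ c v) ∧
    ∀ v, ∃ i, (∃ w, c w = i) ∧ ∀ w, c w = i → G.Adj v w

/-- The total dominator chromatic number `χ_td(G)`: the minimum number of colours in a total
dominator colouring. -/
noncomputable def chiTD (G : SimpleGraph V) : ℕ :=
  sInf {k | ∃ c : V → Fin k, TDColoring G c}

/-- The possible first labels of a vertex. -/
inductive First | U | Q | N

/-- The possible second labels of a vertex. -/
inductive Second | S | D | R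

/-- The local rules for the labels `a v`, `b v` of the vertices `v`. Each rule concerns a vertex and
its neighbours:

* `a v = U`: all the neighbours `w` of `v` have `b w = D`;
* `a v = Q`: exactly one neighbour `w` of `v` has `b w = S`;
* `a v = N`: some neighbour `w` of `v` has `b w = S`;
* `b v = S`: one neighbour `w` of `v` has `a w = Q`, and all the others have `a w = N`;
* `b v = D`: one neighbour `w` of `v` has `a w = U`, and all the others have `a w = N`;
* `b v = R`: at most one neighbour `w` of `v` has `a w ≠ N`, and no neighbour has `b w = R`.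

In particular every vertex has at most one neighbour `w` with `a w ≠ N`: the edges which contain a
vertex with `a ≠ N` (a centre) form vertex-disjoint stars and double stars, and the other edges of
the graph join vertices which are not centres. -/
structure IsLabelling (G : SimpleGraph V) (a : V → First) (b : V → Second) : Prop where
  u : ∀ v, a v = .U → ∀ w, G.Adj v w → b w = .D
  q : ∀ v, a v = .Q → ∃! w, G.Adj v w ∧ b w = .S
  n : ∀ v, a v = .N → ∃ w, G.Adj v w ∧ b w = .S
  s : ∀ v, b v = .S → ∃ w, G.Adj v w ∧ a w = .Q ∧ ∀ w', G.Adj v w' → w' ≠ w → a w' = .N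
  d : ∀ v, b v = .D → ∃ w, G.Adj v w ∧ a w = .U ∧ ∀ w', G.Adj v w' → w' ≠ w → a w' = .N
  r : ∀ v, b v = .R →
    (∀ w w', G.Adj v w → G.Adj v w' → a w ≠ .N → a w' ≠ .N → w = w') ∧
      ∀ w, G.Adj v w → b w ≠ .R

/-- Henning's family `𝒯` (for a tree `G`): `G` is `P₂`, or it arises from vertex-disjoint stars of
order at least 3, with set of centres `C`, by adding edges between leaves of the stars, so that every
centre is still adjacent to a leaf of `G`. -/
def IsStarTree (G : SimpleGraph V) : Prop :=
  Nat.card V = 2 ∨ ∃ C : Set V,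
    (∀ v ∈ C, (∀ w, G.Adj v w → w ∉ C) ∧ (∃ w w', w ≠ w' ∧ G.Adj v w ∧ G.Adj v w') ∧
      ∃ w, G.Adj v w ∧ ∀ w', G.Adj w w' → w' = v) ∧
    ∀ v, v ∉ C → ∃! w, w ∈ C ∧ G.Adj v w

/-- the vertices without neighbour in `S` -/
noncomputable def Und (G : SimpleGraph V) [Fintype V] (S : Finset V) : Finset V :=
  univ.filter (fun v => ∀ s ∈ S, ¬ G.Adj v s)

/-- open packing -/
def Packing (G : SimpleGraph V) (P : Finset V) : Prop :=
  ∀ v, ∀ p ∈ P, ∀ p' ∈ P, G.Adj v p → G.Adj v p' → p = p'

section tree

variable {G : SimpleGraph V}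

lemma parent_unique (hG : G.IsTree) (u : V) {v w w' : V} (h : G.Adj v w) (h' : G.Adj v w')
    (hd : G.dist u v = G.dist u w + 1) (hd' : G.dist u v = G.dist u w' + 1) : w = w' := by
  obtain ⟨p, hp, hl⟩ := (hG.connected u w).exists_path_of_dist
  obtain ⟨q, hq, hl'⟩ := (hG.connected u w').exists_path_of_dist
  have key : ∀ {x : V} (r : G.Walk u x), r.length = G.dist u x → G.dist u v = G.dist u x + 1 →
      v ∉ r.support := by
    intro x r hr hdx hv
    have h1 := SimpleGraph.dist_le (r.takeUntil v hv)
    have h2 := r.length_takeUntil_le_length hv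
    omega
  have hpc := hp.concat (key p hl hd) h.symm
  have hqc := hq.concat (key q hl' hd') h'.symm
  have := (hG.isAcyclic.subsingleton_path u v).elim ⟨_, hpc⟩ ⟨_, hqc⟩
  have h3 : p.concat h.symm = q.concat h'.symm := congrArg Subtype.val this
  have h4 := congrArg SimpleGraph.Walk.penultimate h3
  simpa using h4

lemma common_nbr (hG : G.IsTree) {x y a b : V} (hxy : x ≠ y) (hxa : G.Adj x a) (hya : G.Adj y a)
    (hxb : G.Adj x b) (hyb : G.Adj y b) : a = b := by
  have ha : G.dist x a = 1 := SimpleGraph.dist_eq_one_iff_adj.2 hxa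
  have hb : G.dist x b = 1 := SimpleGraph.dist_eq_one_iff_adj.2 hxb
  have hy : G.dist x y ≠ 0 := by
    intro h
    exact hxy ((hG.connected.dist_eq_zero_iff).1 h)
  have h1 := hG.dist_eq_dist_add_one_of_adj x hya
  have h2 := hG.dist_eq_dist_add_one_of_adj x hyb
  exact parent_unique hG x hya hyb (by omega) (by omega)

lemma exists_adj [Nontrivial V] (hG : G.IsTree) (v : V) : ∃ w, G.Adj v w :=
  hG.connected.preconnected.exists_adj_of_nontrivial v

/-- domination of a set `X` and packing inside `X` -/
lemma duality [Nontrivial V] (hG : G.IsTree) (X : Finset V) :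
    ∃ S P : Finset V, P ⊆ X ∧ (∀ x ∈ X, ∃ s ∈ S, G.Adj x s) ∧ (∀ s ∈ S, ∃ x ∈ X, G.Adj x s) ∧
      S.card ≤ P.card ∧ Packing G P := by
  obtain ⟨r⟩ := hG.connected.nonempty
  induction X using Finset.strongInduction with
  | H X ih =>
    rcases X.eq_empty_or_nonempty with rfl | hX
    · exact ⟨∅, ∅, by simp, by simp, by simp, by simp, by intro v p hp; simp at hp⟩
    obtain ⟨x, hx, hmax⟩ := X.exists_max_image (fun v => G.dist r v) hX
    obtain ⟨y, hxy, hy⟩ : ∃ y, G.Adj x y ∧ (x = r ∨ G.dist r x = G.dist r y + 1) := by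
      by_cases hxr : x = r
      · obtain ⟨y, hy⟩ := exists_adj hG x
        exact ⟨y, hy, Or.inl hxr⟩
      · obtain ⟨p, hp, hl⟩ := (hG.connected x r).exists_path_of_dist
        cases p with
        | nil => exact absurd rfl hxr
        | cons h q =>
          rename_i y
          refine ⟨y, h, Or.inr ?_⟩
          have h1 := SimpleGraph.dist_le q
          have h2 := hG.dist_eq_dist_add_one_of_adj r h
          rw [SimpleGraph.dist_comm (u := x) (v := r)] at hl
          rw [SimpleGraph.dist_comm (u := y) (v := r)] at h1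
          simp only [SimpleGraph.Walk.length_cons] at hl
          omega
    have hsub : X.filter (fun v => ¬ G.Adj v y) ⊂ X := by
      refine ⟨filter_subset _ _, fun h => ?_⟩
      have := h hx
      simp only [mem_filter] at this
      exact this.2 hxy
    obtain ⟨S, P, hPX, hdom, hS, hc, hP⟩ := ih _ hsub
    have hxP : x ∉ P := by
      intro h
      have := hPX h
      simp only [mem_filter] at this
      exact this.2 hxy
    have key : ∀ v, ∀ p ∈ P, G.Adj v x → G.Adj v p → False := by
      intro v p hp hvx hvp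
      have hp' := hPX hp
      simp only [mem_filter] at hp'
      obtain ⟨hpX, hpy⟩ := hp'
      have hvy : v ≠ y := by
        rintro rfl
        exact hpy hvp.symm
      have hne : p ≠ x := by
        rintro rfl
        exact hxP hp
      have hm := hmax p hpX
      rcases hy with rfl | hy
      · have : G.dist x p = 0 := by simpa using hm
        exact hne ((hG.connected.dist_eq_zero_iff).1 this).symm
      · have h1 := hG.dist_eq_dist_add_one_of_adj r hvx
        have h2 := hG.dist_eq_dist_add_one_of_adj r hvp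
        have h3 : G.dist r v ≠ G.dist r y := by
          intro h
          exact hvy (parent_unique hG r hvx.symm hxy (by omega) hy)
        have h4 : G.dist r v = G.dist r x + 1 := by
          rcases h1 with h1 | h1
          · exact h1
          · exfalso
            exact h3 (by omega)
        have h5 : G.dist r v = G.dist r p + 1 := by omega
        exact hne (parent_unique hG r hvp hvx h5 h4)
    refine ⟨insert y S, insert x P, ?_, ?_, ?_, ?_, ?_⟩
    · intro z hz
      rcases mem_insert.1 hz with rfl | hz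
      · exact hx
      · exact (mem_filter.1 (hPX hz)).1
    · intro z hz
      by_cases hzy : G.Adj z y
      · exact ⟨y, mem_insert_self _ _, hzy⟩
      · obtain ⟨s, hs, h⟩ := hdom z (mem_filter.2 ⟨hz, hzy⟩)
        exact ⟨s, mem_insert_of_mem hs, h⟩
    · intro s hs
      rcases mem_insert.1 hs with rfl | hs
      · exact ⟨x, hx, hxy⟩
      · obtain ⟨z, hz, h⟩ := hS s hs
        exact ⟨z, (mem_filter.1 hz).1, h⟩
    · rw [card_insert_of_notMem hxP]
      exact (card_insert_le _ _).trans (by omega)
    · intro v p hp p' hp' h h'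
      rcases mem_insert.1 hp with h1 | h1
      · rcases mem_insert.1 hp' with h2 | h2
        · rw [h1, h2]
        · exact (key v p' h2 (h1 ▸ h) h').elim
      · rcases mem_insert.1 hp' with h2 | h2
        · exact (key v p h1 (h2 ▸ h') h).elim
        · exact hP v p h1 p' h2 h h'

end tree

section card

variable {G : SimpleGraph V}

/-- an open packing injects into every set dominating it -/
lemma card_le_of_dom {P S : Finset V} (hP : Packing G P) (h : ∀ p ∈ P, ∃ s ∈ S, G.Adj p s) :
    P.card ≤ S.card := by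
  choose! f hf hf' using h
  refine card_le_card_of_injOn f (fun p hp => hf p hp) ?_
  intro p hp q hq hpq
  have hp := mem_coe.1 hp
  have hq := mem_coe.1 hq
  refine hP (f p) p hp q hq (hf' p hp).symm ?_
  rw [hpq]
  exact (hf' q hq).symm

/-- equality case -/
lemma tight {P S : Finset V} (hP : Packing G P) (h : ∀ p ∈ P, ∃ s ∈ S, G.Adj p s)
    (hc : S.card ≤ P.card) :
    (∀ s ∈ S, ∃ p ∈ P, G.Adj s p) ∧
      ∀ p ∈ P, ∀ s ∈ S, ∀ s' ∈ S, G.Adj p s → G.Adj p s' → s = s' := by
  choose! f hf hf' using h
  have hinj : Set.InjOn f (P : Set V) := by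
    intro p hp q hq hpq
    have hp := mem_coe.1 hp
    have hq := mem_coe.1 hq
    refine hP (f p) p hp q hq (hf' p hp).symm ?_
    rw [hpq]
    exact (hf' q hq).symm
  have himg : P.image f = S := by
    apply eq_of_subset_of_card_le
    · intro s hs
      obtain ⟨p, hp, rfl⟩ := mem_image.1 hs
      exact hf p hp
    · rw [card_image_of_injOn hinj]
      exact hc
  have hex : ∀ s ∈ S, ∃ p ∈ P, f p = s := by
    intro s hs
    rw [← himg] at hs
    exact mem_image.1 hs
  refine ⟨fun s hs => ?_, fun p hp s hs s' hs' h h' => ?_⟩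
  · obtain ⟨p, hp, rfl⟩ := hex s hs
    exact ⟨p, hp, (hf' p hp).symm⟩
  · obtain ⟨q, hq, rfl⟩ := hex s hs
    obtain ⟨q', hq', rfl⟩ := hex s' hs'
    have h1 : p = q := hP (f q) p hp q hq h.symm (hf' q hq).symm
    have h2 : p = q' := hP (f q') p hp q' hq' h'.symm (hf' q' hq').symm
    rw [← h1, ← h2]

lemma gammaT_le {S : Finset V} (h : TDSet G S) : gammaT G ≤ S.card :=
  Nat.sInf_le ⟨S, h, rfl⟩

variable [Fintype V] [Nontrivial V]

lemma exists_min (hG : G.IsTree) : ∃ S : Finset V, TDSet G S ∧ S.card = gammaT G := by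
  have : (univ : Finset V).card ∈ {n | ∃ S : Finset V, TDSet G S ∧ S.card = n} :=
    ⟨univ, fun v => by obtain ⟨w, hw⟩ := exists_adj hG v; exact ⟨w, mem_univ _, hw⟩, rfl⟩
  exact Nat.sInf_mem ⟨_, this⟩

lemma le_gammaT (hG : G.IsTree) {P : Finset V} (hP : Packing G P) : P.card ≤ gammaT G := by
  obtain ⟨S, hS, hc⟩ := exists_min hG
  rw [← hc]
  exact card_le_of_dom hP (fun p _ => hS p)

lemma exists_packing (hG : G.IsTree) : ∃ P : Finset V, Packing G P ∧ P.card = gammaT G := by
  obtain ⟨S, P, -, hdom, -, hc, hP⟩ := duality hG (univ : Finset V)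
  refine ⟨P, hP, le_antisymm (le_gammaT hG hP) ?_⟩
  exact (gammaT_le (S := S) (fun v => hdom v (mem_univ _))).trans hc

end card

section good

variable {G : SimpleGraph V} [Fintype V]

lemma mem_Und {S : Finset V} {v : V} : v ∈ Und G S ↔ ∀ s ∈ S, ¬ G.Adj v s := by
  simp [Und]

lemma not_mem_Und {S : Finset V} {v : V} : v ∉ Und G S ↔ ∃ s ∈ S, G.Adj v s := by
  rw [mem_Und]
  push Not
  rfl

/-- `S` with a choice of neighbours of the undominated vertices is total dominating -/
lemma tdset_union {S : Finset V} {n : V → V} (hn : ∀ v, G.Adj v (n v)) :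
    TDSet G (S ∪ (Und G S).image n) := by
  intro v
  by_cases hv : v ∈ Und G S
  · exact ⟨n v, mem_union_right _ (mem_image_of_mem _ hv), hn v⟩
  · obtain ⟨s, hs, h⟩ := not_mem_Und.1 hv
    exact ⟨s, mem_union_left _ hs, h⟩

lemma card_union_le' {S : Finset V} {n : V → V} :
    (S ∪ (Und G S).image n).card ≤ S.card + (Und G S).card :=
  (card_union_le _ _).trans (Nat.add_le_add_left card_image_le _)

variable [Nontrivial V]

lemma gammaT_le_add (hG : G.IsTree) (S : Finset V) : gammaT G ≤ S.card + (Und G S).card := by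
  choose n hn using exists_adj hG
  exact (gammaT_le (tdset_union hn)).trans card_union_le'

/-- the neighbourhoods of the undominated vertices are disjoint -/
lemma und_disjoint (hG : G.IsTree) {S : Finset V} (hS : S.card + (Und G S).card ≤ gammaT G)
    {u u' v : V} (hu : u ∈ Und G S) (hu' : u' ∈ Und G S) (h : G.Adj v u) (h' : G.Adj v u') :
    u = u' := by
  by_contra hne
  choose n hn using exists_adj hG
  set U' := ((Und G S).erase u).erase u' with hU'
  have h1 : TDSet G (insert v (S ∪ U'.image n)) := by
    intro w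
    by_cases hw : w ∈ Und G S
    · by_cases h1 : w = u
      · exact ⟨v, mem_insert_self _ _, h1 ▸ h.symm⟩
      · by_cases h2 : w = u'
        · exact ⟨v, mem_insert_self _ _, h2 ▸ h'.symm⟩
        · exact ⟨n w, mem_insert_of_mem (mem_union_right _ (mem_image_of_mem _
            (mem_erase.2 ⟨h2, mem_erase.2 ⟨h1, hw⟩⟩))), hn w⟩
    · obtain ⟨s, hs, h⟩ := not_mem_Und.1 hw
      exact ⟨s, mem_insert_of_mem (mem_union_left _ hs), h⟩
  have h2 := gammaT_le h1
  have h3 : (insert v (S ∪ U'.image n)).card ≤ (S.card + U'.card) + 1 :=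
    (card_insert_le _ _).trans (Nat.add_le_add_right ((card_union_le _ _).trans
      (Nat.add_le_add_left card_image_le _)) _)
  have h4 : U'.card + 2 ≤ (Und G S).card := by
    have h5 : ((Und G S).erase u).card + 1 = (Und G S).card := card_erase_add_one hu
    have h6 : U'.card + 1 = ((Und G S).erase u).card :=
      card_erase_add_one (mem_erase.2 ⟨fun h => hne h.symm, hu'⟩)
    omega
  omega

end good

section labels

variable {G : SimpleGraph V}

lemma chiTD_le_card {κ : Type*} [Fintype κ] (c : V → κ) (h1 : ∀ u v, G.Adj u v → c u ≠ c v)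
    (h2 : ∀ v, ∃ i, (∃ w, c w = i) ∧ ∀ w, c w = i → G.Adj v w) :
    chiTD G ≤ Fintype.card κ := by
  refine Nat.sInf_le ⟨fun v => Fintype.equivFin κ (c v), ?_, ?_⟩
  · intro u v h
    simpa using h1 u v h
  · intro v
    obtain ⟨i, ⟨w, hw⟩, hi⟩ := h2 v
    exact ⟨Fintype.equivFin κ i, ⟨w, by simp only [hw]⟩, fun w hw => hi w (by simpa using hw)⟩

lemma no_triangle (hG : G.IsTree) {x y z : V} (h1 : G.Adj x y) (h2 : G.Adj y z)
    (h3 : G.Adj x z) : False := by
  have c := hG.coloringTwo
  have e1 := c.valid h1
  have e2 := c.valid h2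
  have e3 := c.valid h3
  omega

variable [Fintype V] [Nontrivial V]

lemma labelling_of_good (hG : G.IsTree) {S : Finset V}
    (hS : S.card + (Und G S).card ≤ gammaT G)
    (hR : ∀ v w, v ∉ S → (∀ u ∈ Und G S, ¬ G.Adj v u) → w ∉ S →
      (∀ u ∈ Und G S, ¬ G.Adj w u) → ¬ G.Adj v w) :
    ∃ a b, IsLabelling G a b ∧ ∀ v, b v = .R → v ∉ S ∧ ∀ u ∈ Und G S, ¬ G.Adj v u := by
  obtain ⟨P, hP, hPc⟩ := exists_packing hG
  have hti : ∀ n : V → V, (∀ v, G.Adj v (n v)) →
      (∀ s ∈ S ∪ (Und G S).image n, ∃ p ∈ P, G.Adj s p) ∧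
      ∀ p ∈ P, ∀ s ∈ S ∪ (Und G S).image n, ∀ s' ∈ S ∪ (Und G S).image n,
        G.Adj p s → G.Adj p s' → s = s' := fun n hn =>
    tight hP (fun p _ => tdset_union hn p) (card_union_le'.trans (hS.trans_eq hPc.symm))
  choose n hn using exists_adj hG
  set Q : Finset V := P.filter (fun p => ∃ s ∈ S, G.Adj p s) with hQ
  have hQP : ∀ v ∈ Q, v ∈ P := fun v hv => (mem_filter.1 hv).1
  let a : V → First := fun v => if v ∈ Und G S then .U else if v ∈ Q then .Q else .N
  let b : V → Second := fun v => if v ∈ S then .S else if ∃ u ∈ Und G S, G.Adj v u then .D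
    else .R
  have haU : ∀ v, a v = .U ↔ v ∈ Und G S := by
    intro v
    by_cases h1 : v ∈ Und G S <;> by_cases h2 : v ∈ Q <;> simp [a, h1, h2]
  have haQ : ∀ v, a v = .Q ↔ v ∉ Und G S ∧ v ∈ Q := by
    intro v
    by_cases h1 : v ∈ Und G S <;> by_cases h2 : v ∈ Q <;> simp [a, h1, h2]
  have haN : ∀ v, a v = .N ↔ v ∉ Und G S ∧ v ∉ Q := by
    intro v
    by_cases h1 : v ∈ Und G S <;> by_cases h2 : v ∈ Q <;> simp [a, h1, h2]
  have hbS : ∀ v, b v = .S ↔ v ∈ S := by
    intro v
    by_cases h1 : v ∈ S <;> by_cases h2 : (∃ u ∈ Und G S, G.Adj v u) <;> simp [b, h1, h2]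
  have hbD : ∀ v, b v = .D ↔ v ∉ S ∧ ∃ u ∈ Und G S, G.Adj v u := by
    intro v
    by_cases h1 : v ∈ S <;> by_cases h2 : (∃ u ∈ Und G S, G.Adj v u) <;> simp [b, h1, h2]
  have hbR : ∀ v, b v = .R ↔ v ∉ S ∧ ∀ u ∈ Und G S, ¬ G.Adj v u := by
    intro v
    by_cases h1 : v ∈ S <;> by_cases h2 : (∃ u ∈ Und G S, G.Adj v u) <;> simp [b, h1, h2]
    · simpa using h2
  refine ⟨a, b, ⟨?_, ?_, ?_, ?_, ?_, ?_⟩, fun v hv => (hbR v).1 hv⟩
  · intro v hv w hw
    rw [haU] at hv
    rw [hbD]
    exact ⟨fun h => mem_Und.1 hv w h hw, v, hv, hw.symm⟩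
  · intro v hv
    rw [haQ] at hv
    obtain ⟨s, hs, h⟩ := (mem_filter.1 hv.2).2
    refine ⟨s, ⟨h, (hbS s).2 hs⟩, ?_⟩
    rintro w ⟨hw, hw'⟩
    rw [hbS] at hw'
    exact (hti n hn).2 v (hQP v hv.2) w (mem_union_left _ hw') s (mem_union_left _ hs) hw h
  · intro v hv
    rw [haN] at hv
    obtain ⟨s, hs, h⟩ := not_mem_Und.1 hv.1
    exact ⟨s, h, (hbS s).2 hs⟩
  · intro v hv
    rw [hbS] at hv
    obtain ⟨p, hp, h⟩ := (hti n hn).1 v (mem_union_left _ hv)
    refine ⟨p, h, (haQ p).2 ⟨not_mem_Und.2 ⟨v, hv, h.symm⟩, mem_filter.2 ⟨hp, v, hv, h.symm⟩⟩, ?_⟩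
    intro w hw hne
    rw [haN]
    refine ⟨not_mem_Und.2 ⟨v, hv, hw.symm⟩, fun hwQ => hne ?_⟩
    exact hP v w (hQP w hwQ) p hp hw h
  · intro v hv
    rw [hbD] at hv
    obtain ⟨hvS, u, hu, h⟩ := hv
    refine ⟨u, h, (haU u).2 hu, ?_⟩
    intro w hw hne
    rw [haN]
    refine ⟨fun hwU => hne (und_disjoint hG hS hwU hu hw h), fun hwQ => ?_⟩
    obtain ⟨s, hs, hws⟩ := (mem_filter.1 hwQ).2
    set n' := Function.update n u v with hn'
    have hn1 : ∀ x, G.Adj x (n' x) := by
      intro x
      by_cases hx : x = u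
      · subst hx
        rw [hn', Function.update_self]
        exact h.symm
      · rw [hn', Function.update_of_ne hx]
        exact hn x
    have h2 : v ∈ S ∪ (Und G S).image n' := by
      refine mem_union_right _ (mem_image.2 ⟨u, hu, ?_⟩)
      rw [hn', Function.update_self]
    have h3 := (hti n' hn1).2 w (hQP w hwQ) v h2 s (mem_union_left _ hs) hw.symm hws
    exact hvS (h3 ▸ hs)
  · intro v hv
    rw [hbR] at hv
    refine ⟨?_, ?_⟩
    · intro w w' hw hw' h h'
      have key : ∀ x, G.Adj v x → a x ≠ .N → x ∈ Q := by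
        intro x hx hax
        by_contra hxQ
        refine hax ((haN x).2 ⟨fun hxU => hv.2 x hxU hx, hxQ⟩)
      exact hP v w (hQP w (key w hw h)) w' (hQP w' (key w' hw' h')) hw hw'
    · intro w hw hwR
      rw [hbR] at hwR
      exact hR v w hv.1 hv.2 hwR.1 hwR.2 hw

lemma chiTD_le_of_labelling (hG : G.IsTree) {a : V → First} {b : V → Second}
    (h : IsLabelling G a b) :
    chiTD G ≤ gammaT G + 1 ∧ ((∀ v, b v ≠ .R) → chiTD G ≤ gammaT G) := by
  have hpack : Packing G (univ.filter (fun v => a v ≠ .N)) := by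
    intro v p hp p' hp' hvp hvp'
    rw [mem_filter] at hp hp'
    cases hb : b v with
    | S =>
      obtain ⟨w, -, -, hw⟩ := h.s v hb
      have e1 : p = w := by
        by_contra hne
        exact hp.2 (hw p hvp hne)
      have e2 : p' = w := by
        by_contra hne
        exact hp'.2 (hw p' hvp' hne)
      rw [e1, e2]
    | D =>
      obtain ⟨w, -, -, hw⟩ := h.d v hb
      have e1 : p = w := by
        by_contra hne
        exact hp.2 (hw p hvp hne)
      have e2 : p' = w := by
        by_contra hne
        exact hp'.2 (hw p' hvp' hne)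
      rw [e1, e2]
    | R => exact (h.r v hb).1 p p' hvp hvp' hp.2 hp'.2
  have hle := le_gammaT hG hpack
  have hsplit : (univ.filter (fun v => a v = .Q)).card + (univ.filter (fun v => a v = .U)).card ≤
      (univ.filter (fun v => a v ≠ .N)).card := by
    rw [← card_union_of_disjoint]
    · apply card_le_card
      intro v hv
      simp only [mem_union, mem_filter, mem_univ, true_and] at hv ⊢
      rcases hv with hv | hv <;> rw [hv] <;> simp
    · rw [disjoint_filter]
      intro v _ h1 h2
      rw [h1] at h2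
      cases h2
  have hSQ : (univ.filter (fun v => b v = .S)).card ≤ (univ.filter (fun v => a v = .Q)).card := by
    choose! f hf using h.s
    refine card_le_card_of_injOn f ?_ ?_
    · intro v hv
      simp only [coe_filter, mem_univ, true_and, Set.mem_ofPred_eq] at hv ⊢
      exact (hf v hv).2.1
    · intro v hv w hw hvw
      simp only [coe_filter, mem_univ, true_and, Set.mem_ofPred_eq] at hv hw
      obtain ⟨x, -, hx⟩ := h.q (f v) (hf v hv).2.1
      have e1 := hx v ⟨(hf v hv).1.symm, hv⟩
      have e2 := hx w ⟨by rw [hvw]; exact (hf w hw).1.symm, hw⟩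
      rw [e1, e2]
  choose! uu huu using h.d
  set c : V → ({v // b v = Second.S} ⊕ {v // a v = First.U}) ⊕ {t : Unit // ∃ v, b v = Second.R} :=
    fun v => if h1 : b v = .S then Sum.inl (Sum.inl ⟨v, h1⟩) else
      if h2 : b v = .D then Sum.inl (Sum.inr ⟨uu v, (huu v h2).2.1⟩) else
        Sum.inr ⟨(), v, by cases hb : b v <;> simp_all⟩ with hc
  have hcS : ∀ v (h1 : b v = .S), c v = Sum.inl (Sum.inl ⟨v, h1⟩) := by
    intro v h1; simp only [hc]; rw [dif_pos h1]
  have hcD : ∀ v (h1 : b v = .D), c v = Sum.inl (Sum.inr ⟨uu v, (huu v h1).2.1⟩) := by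
    intro v h1
    have h2 : b v ≠ .S := by rw [h1]; simp
    simp only [hc]; rw [dif_neg h2, dif_pos h1]
  have hcR : ∀ v (h1 : b v = .R), c v = Sum.inr ⟨(), v, h1⟩ := by
    intro v h1
    have h2 : b v ≠ .S := by rw [h1]; simp
    have h3 : b v ≠ .D := by rw [h1]; simp
    simp only [hc]; rw [dif_neg h2, dif_neg h3]
  have hchi : chiTD G ≤ Fintype.card (({v // b v = Second.S} ⊕ {v // a v = First.U}) ⊕
      {t : Unit // ∃ v, b v = Second.R}) := by
    refine chiTD_le_card c ?_ ?_
    · intro v w hvw heq
      cases hv : b v with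
      | S =>
        cases hw : b w with
        | S =>
          rw [hcS v hv, hcS w hw] at heq
          simp only [Sum.inl.injEq, Subtype.mk.injEq] at heq
          exact hvw.ne heq
        | D => rw [hcS v hv, hcD w hw] at heq; simp at heq
        | R => rw [hcS v hv, hcR w hw] at heq; simp at heq
      | D =>
        cases hw : b w with
        | S => rw [hcD v hv, hcS w hw] at heq; simp at heq
        | D =>
          rw [hcD v hv, hcD w hw] at heq
          simp only [Sum.inl.injEq, Sum.inr.injEq, Subtype.mk.injEq] at heq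
          refine no_triangle hG hvw (huu w hw).1 ?_
          rw [← heq]
          exact (huu v hv).1
        | R => rw [hcD v hv, hcR w hw] at heq; simp at heq
      | R =>
        cases hw : b w with
        | S => rw [hcR v hv, hcS w hw] at heq; simp at heq
        | D => rw [hcR v hv, hcD w hw] at heq; simp at heq
        | R => exact (h.r v hv).2 w hvw hw
    · intro v
      by_cases hv : a v = .U
      · obtain ⟨w, hw⟩ := exists_adj hG v
        have hwD := h.u v hv w hw
        have huw : v = uu w := by
          by_contra hne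
          have := (huu w hwD).2.2 v hw.symm hne
          rw [hv] at this
          cases this
        refine ⟨Sum.inl (Sum.inr ⟨v, hv⟩), ⟨w, ?_⟩, ?_⟩
        · rw [hcD w hwD]
          simp only [Sum.inl.injEq, Sum.inr.injEq, Subtype.mk.injEq]
          exact huw.symm
        · intro x hx
          cases hbx : b x with
          | S => rw [hcS x hbx] at hx; simp at hx
          | D =>
            rw [hcD x hbx] at hx
            simp only [Sum.inl.injEq, Sum.inr.injEq, Subtype.mk.injEq] at hx
            rw [← hx]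
            exact (huu x hbx).1.symm
          | R => rw [hcR x hbx] at hx; simp at hx
      · obtain ⟨s, hs, hsS⟩ : ∃ w, G.Adj v w ∧ b w = .S := by
          cases hav : a v with
          | U => exact absurd hav hv
          | Q => exact (h.q v hav).exists
          | N => exact h.n v hav
        refine ⟨Sum.inl (Sum.inl ⟨s, hsS⟩), ⟨s, hcS s hsS⟩, ?_⟩
        intro x hx
        cases hbx : b x with
        | S =>
          rw [hcS x hbx] at hx
          simp only [Sum.inl.injEq, Subtype.mk.injEq] at hx
          rw [hx]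
          exact hs
        | D => rw [hcD x hbx] at hx; simp at hx
        | R => rw [hcR x hbx] at hx; simp at hx
  rw [Fintype.card_sum, Fintype.card_sum, Fintype.card_subtype, Fintype.card_subtype] at hchi
  constructor
  · have h1 : Fintype.card {t : Unit // ∃ v, b v = Second.R} ≤ 1 := by
      have := Fintype.card_subtype_le (fun t : Unit => ∃ v, b v = Second.R)
      simpa using this
    omega
  · intro hR
    have h1 : Fintype.card {t : Unit // ∃ v, b v = Second.R} = 0 := by
      rw [Fintype.card_eq_zero_iff]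
      exact ⟨fun t => by obtain ⟨v, hv⟩ := t.2; exact hR v hv⟩
    omega

end labels

section colourings

variable {G : SimpleGraph V} [Fintype V] [Nontrivial V]

lemma from_colouring (hG : G.IsTree) {k : ℕ} {c : V → Fin k} {f : V → Fin k}
    (hf1 : ∀ v, ∃ w, c w = f v) (hf2 : ∀ v w, c w = f v → G.Adj v w)
    (J : Finset (Fin k)) (T0 : Finset V)
    (hb : ∀ v, (∀ s ∈ T0, ¬ G.Adj v s) → f v ∈ J) (hcard : T0.card + J.card ≤ gammaT G) :
    ∃ S : Finset V, T0 ⊆ S ∧ S.card + (Und G S).card ≤ gammaT G ∧
      ∀ x, x ∉ S → (∀ u ∈ Und G S, ¬ G.Adj x u) → c x ∉ J := by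
  let S0 : Finset V := univ.filter (fun v => c v ∈ J ∧ ∀ w, c w = c v → w = v)
  have hS0 : ∀ v, v ∈ S0 ↔ c v ∈ J ∧ ∀ w, c w = c v → w = v := by
    intro v; simp [S0]
  let S : Finset V := T0 ∪ S0
  have hfJ : ∀ v ∈ Und G S, f v ∈ J := by
    intro v hv
    exact hb v (fun s hs => mem_Und.1 hv s (mem_union_left _ hs))
  have hne : ∀ v ∈ Und G S, ∀ s ∈ S0, c s ≠ f v := by
    intro v hv s hs h
    exact mem_Und.1 hv s (mem_union_right _ hs) (hf2 v s h)
  have hinjU : Set.InjOn f (Und G S : Set V) := by
    intro v hv v' hv' h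
    have hv := mem_coe.1 hv
    have hv' := mem_coe.1 hv'
    by_contra hvv
    obtain ⟨w, hw⟩ := hf1 v
    by_cases hw1 : ∀ w', c w' = c w → w' = w
    · have : w ∈ S0 := (hS0 w).2 ⟨by rw [hw]; exact hfJ v hv, hw1⟩
      exact hne v hv w this hw
    · push Not at hw1
      obtain ⟨w', hw', hww⟩ := hw1
      rw [hw] at hw'
      exact hww (common_nbr hG hvv (hf2 v w hw) (hf2 v' w (by rw [hw, h])) (hf2 v w' hw')
        (hf2 v' w' (by rw [hw', h]))).symm
  have hinjS : Set.InjOn c (S0 : Set V) := by
    intro v hv v' hv' h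
    exact ((hS0 v').1 (mem_coe.1 hv')).2 v h
  have hdisj : Disjoint (S0.image c) ((Und G S).image f) := by
    rw [Finset.disjoint_left]
    intro j hj hj'
    obtain ⟨s, hs, rfl⟩ := mem_image.1 hj
    obtain ⟨v, hv, h⟩ := mem_image.1 hj'
    exact hne v hv s hs h.symm
  have hcount : ((S0.image c) ∪ ((Und G S).image f)).card = S0.card + (Und G S).card := by
    rw [card_union_of_disjoint hdisj, card_image_of_injOn hinjS, card_image_of_injOn hinjU]
  have hsubJ : (S0.image c) ∪ ((Und G S).image f) ⊆ J := by
    intro j hj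
    rcases mem_union.1 hj with hj | hj
    · obtain ⟨s, hs, rfl⟩ := mem_image.1 hj
      exact ((hS0 s).1 hs).1
    · obtain ⟨v, hv, rfl⟩ := mem_image.1 hj
      exact hfJ v hv
  have hSc : S.card ≤ T0.card + S0.card := card_union_le _ _
  have hJc := card_le_card hsubJ
  refine ⟨S, subset_union_left, by omega, ?_⟩
  intro x hxS hxU hxJ
  have hlow := gammaT_le_add hG S
  have hlt : ((S0.image c) ∪ ((Und G S).image f)).card < J.card := by
    refine card_lt_card ⟨hsubJ, fun hcon => ?_⟩
    have hx := hcon hxJ
    rcases mem_union.1 hx with hx | hx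
    · obtain ⟨s, hs, h⟩ := mem_image.1 hx
      have := ((hS0 s).1 hs).2 x h.symm
      exact hxS (mem_union_right _ (this ▸ hs))
    · obtain ⟨v, hv, h⟩ := mem_image.1 hx
      exact hxU v hv (hf2 v x h.symm).symm
  omega

/-- representatives of colours -/
lemma exists_rep {k : ℕ} {c f : V → Fin k} (hf1 : ∀ v, ∃ w, c w = f v)
    (hf2 : ∀ v w, c w = f v → G.Adj v w) (X : Finset V) :
    ∃ S : Finset V, S.card ≤ (X.image f).card ∧ ∀ x ∈ X, ∃ s ∈ S, G.Adj x s := by
  have : ∀ j : Fin k, ∃ w : V, (∃ v, f v = j) → c w = j := by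
    intro j
    by_cases h : ∃ v, f v = j
    · obtain ⟨v, rfl⟩ := h
      obtain ⟨w, hw⟩ := hf1 v
      exact ⟨w, fun _ => hw⟩
    · exact ⟨Classical.arbitrary V, fun h' => absurd h' h⟩
  choose rep hrep using this
  refine ⟨(X.image f).image rep, card_image_le, fun x hx => ⟨rep (f x),
    mem_image_of_mem _ (mem_image_of_mem _ hx), hf2 x _ (hrep (f x) ⟨x, rfl⟩)⟩⟩

lemma gammaT_le_of_colouring {k : ℕ} {c f : V → Fin k} (hf1 : ∀ v, ∃ w, c w = f v)
    (hf2 : ∀ v w, c w = f v → G.Adj v w) : gammaT G ≤ ((univ : Finset V).image f).card := by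
  obtain ⟨S, hS, hd⟩ := exists_rep hf1 hf2 (univ : Finset V)
  exact (gammaT_le (fun v => hd v (mem_univ v))).trans hS

/-- a colouring with few colours gives a good set -/
lemma good_of_colouring (hG : G.IsTree) {k : ℕ} {c : V → Fin k} (hc : TDColoring G c)
    (hk : k ≤ gammaT G + 1) :
    ∃ S : Finset V, S.card + (Und G S).card ≤ gammaT G ∧
      (∀ v w, v ∉ S → (∀ u ∈ Und G S, ¬ G.Adj v u) → w ∉ S →
        (∀ u ∈ Und G S, ¬ G.Adj w u) → ¬ G.Adj v w) ∧
      (k ≤ gammaT G → ∀ v, v ∉ S → (∀ u ∈ Und G S, ¬ G.Adj v u) → False) := by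
  obtain ⟨hprop, hdom⟩ := hc
  choose f hf1 hf2 using hdom
  set I : Finset (Fin k) := (univ : Finset V).image f with hI
  have hγI : gammaT G ≤ I.card := gammaT_le_of_colouring hf1 hf2
  have hIk : I.card ≤ k := by simpa using card_le_univ I
  by_cases hIc : I.card ≤ gammaT G
  · obtain ⟨S, -, hS, hR⟩ := from_colouring hG hf1 hf2 I ∅
      (fun v _ => mem_image_of_mem _ (mem_univ v)) (by simpa using hIc)
    refine ⟨S, hS, ?_, ?_⟩
    · intro v w hv hv' hw hw' hvw
      have h1 := hR v hv hv'
      have h2 := hR w hw hw'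
      have h3 := hprop v w hvw
      have h4 : (insert (c v) (insert (c w) I)).card ≤ k := by
        simpa using card_le_univ (insert (c v) (insert (c w) I))
      rw [card_insert_of_notMem (by simp only [mem_insert, not_or]; exact ⟨h3, h1⟩),
        card_insert_of_notMem h2] at h4
      omega
    · intro hkγ v hv hv'
      have h1 := hR v hv hv'
      have h4 : (insert (c v) I).card ≤ k := by
        simpa using card_le_univ (insert (c v) I)
      rw [card_insert_of_notMem h1] at h4
      omega
  · have hIk' : k = gammaT G + 1 := by omega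
    have hIu : I = univ := by
      apply eq_univ_of_card
      simp
      omega
    let col := hG.coloringTwo
    let X : Fin 2 → Finset V := fun i => univ.filter (fun v => col v = i)
    have hX : ∀ i v, v ∈ X i ↔ col v = i := by intro i v; simp [X]
    have hcol : ∀ v w, G.Adj v w → col v ≠ col w := fun v w h => col.valid h
    have hdu : ∀ i, ∃ S P : Finset V, P ⊆ X i ∧ (∀ x ∈ X i, ∃ s ∈ S, G.Adj x s) ∧
      (∀ s ∈ S, ∃ x ∈ X i, G.Adj x s) ∧ S.card ≤ P.card ∧ Packing G P := fun i => duality hG (X i)
    choose Sd Pd hPX hSdom hSX hSP hPack using hdu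
    let K : Fin 2 → Finset (Fin k) := fun i => (X i).image f
    have hPK : ∀ i, (Pd i).card ≤ (K i).card := by
      intro i
      obtain ⟨S, hS, hd⟩ := exists_rep hf1 hf2 (X i)
      exact (card_le_of_dom (hPack i) (fun p hp => hd p (hPX i hp))).trans hS
    have hγS : gammaT G ≤ (Sd 0).card + (Sd 1).card := by
      refine (gammaT_le (S := Sd 0 ∪ Sd 1) ?_).trans (card_union_le _ _)
      intro v
      have : col v = 0 ∨ col v = 1 := by omega
      rcases this with h | h
      · obtain ⟨s, hs, h'⟩ := hSdom 0 v ((hX 0 v).2 h)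
        exact ⟨s, mem_union_left _ hs, h'⟩
      · obtain ⟨s, hs, h'⟩ := hSdom 1 v ((hX 1 v).2 h)
        exact ⟨s, mem_union_right _ hs, h'⟩
    have hPP : (Pd 0).card + (Pd 1).card ≤ gammaT G := by
      rw [← card_union_of_disjoint]
      · refine le_gammaT hG ?_
        intro v p hp p' hp' h h'
        have hcc : ∀ i, ∀ q ∈ Pd i, col q = i := fun i q hq => (hX i q).1 (hPX i hq)
        have e1 := hcol v p h
        have e2 := hcol v p' h'
        rcases mem_union.1 hp with hp | hp <;> rcases mem_union.1 hp' with hp' | hp'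
        · exact hPack 0 v p hp p' hp' h h'
        · have := hcc 0 p hp; have := hcc 1 p' hp'; omega
        · have := hcc 1 p hp; have := hcc 0 p' hp'; omega
        · exact hPack 1 v p hp p' hp' h h'
      · rw [Finset.disjoint_left]
        intro q h0 h1
        have e0 := (hX 0 q).1 (hPX 0 h0)
        have e1 := (hX 1 q).1 (hPX 1 h1)
        omega
    have hKdisj : Disjoint (K 0) (K 1) := by
      rw [Finset.disjoint_left]
      intro j h0 h1
      obtain ⟨v, hv, rfl⟩ := mem_image.1 h0
      obtain ⟨v', hv', h⟩ := mem_image.1 h1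
      obtain ⟨w, hw⟩ := hf1 v
      have a1 := hcol v w (hf2 v w hw)
      have a2 := hcol v' w (hf2 v' w (by rw [hw, h]))
      have b1 := (hX 0 v).1 hv
      have b2 := (hX 1 v').1 hv'
      omega
    have hKcard : (K 0).card + (K 1).card ≤ k := by
      rw [← card_union_of_disjoint hKdisj]
      simpa using card_le_univ (K 0 ∪ K 1)
    obtain ⟨i, hi⟩ : ∃ i, (K i).card ≤ (Pd i).card := by
      by_contra hcon
      push Not at hcon
      have a0 := hcon 0
      have a1 := hcon 1
      have b0 := hSP 0
      have b1 := hSP 1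
      omega
    have hsum : (Sd (1 - i)).card + (K i).card ≤ gammaT G := by
      have b0 := hSP 0
      have b1 := hSP 1
      have : i = 0 ∨ i = 1 := by omega
      rcases this with rfl | rfl
      · have : (Sd (1 - 0)).card = (Sd 1).card := by simp
        omega
      · have : (Sd (1 - 1)).card = (Sd 0).card := by simp
        omega
    obtain ⟨S, -, hS, hR⟩ := from_colouring hG hf1 hf2 (K i) (Sd (1 - i))
      (fun v hv => by
        refine mem_image_of_mem _ ((hX i v).2 ?_)
        by_contra hne
        have : col v = 1 - i := by omega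
        obtain ⟨s, hs, h⟩ := hSdom (1 - i) v ((hX _ v).2 this)
        exact hv s hs h) hsum
    have hRi : ∀ x, x ∉ S → (∀ u ∈ Und G S, ¬ G.Adj x u) → col x = i := by
      intro x hx hx'
      by_contra hne
      have h1 := hR x hx hx'
      have h2 : c x ∈ I := hIu ▸ mem_univ _
      obtain ⟨v, -, hv⟩ := mem_image.1 h2
      have h3 := hcol v x (hf2 v x hv.symm)
      refine h1 ?_
      rw [← hv]
      exact mem_image_of_mem _ ((hX i v).2 (by omega))
    refine ⟨S, hS, ?_, fun h => by omega⟩
    intro v w hv hv' hw hw' hvw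
    exact hcol v w hvw (by rw [hRi v hv hv', hRi w hw hw'])

end colourings

section stars

variable {G : SimpleGraph V}

lemma card_two (hG : G.IsTree) {x y : V} (h : G.Adj x y) (hx : ∀ w, G.Adj x w → w = y)
    (hy : ∀ w, G.Adj y w → w = x) : Nat.card V = 2 := by
  have key : ∀ u v : V, G.Walk u v → (u = x ∨ u = y) → (v = x ∨ v = y) := by
    intro u v p
    induction p with
    | nil => exact id
    | cons h' q ih =>
      intro hu
      apply ih
      rcases hu with rfl | rfl
      · exact Or.inr (hx _ h')
      · exact Or.inl (hy _ h')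
  rw [Nat.card_eq_two_iff]
  refine ⟨x, y, h.ne, ?_⟩
  ext v
  obtain ⟨p⟩ := hG.connected.preconnected x v
  simpa using key x v p (Or.inl rfl)

lemma star_of_labelling (hG : G.IsTree) {a : V → First} {b : V → Second}
    (h : IsLabelling G a b) (hR : ∀ v, b v ≠ .R) : IsStarTree G := by
  have hleaf : ∀ v, a v = .Q → ∃ s, G.Adj v s ∧ b s = .S ∧ ∀ w, G.Adj v w → w = s := by
    intro v hv
    obtain ⟨s, ⟨hs1, hs2⟩, hs3⟩ := h.q v hv
    refine ⟨s, hs1, hs2, fun w hw => hs3 w ⟨hw, ?_⟩⟩
    cases hb : b w with
    | S => rfl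
    | R => exact absurd hb (hR w)
    | D =>
      obtain ⟨u, -, hu, hu'⟩ := h.d w hb
      have hne : v ≠ u := by
        rintro rfl
        rw [hv] at hu
        cases hu
      have := hu' v hw.symm hne
      rw [hv] at this
      cases this
  by_cases h2 : Nat.card V = 2
  · exact Or.inl h2
  by_cases hA : ∃ s, b s = .S ∧ a s ≠ .U
  · obtain ⟨s, hs, hsU⟩ := hA
    obtain ⟨q, hq, hqQ, hq'⟩ := h.s s hs
    obtain ⟨s', hs', -, hs''⟩ := hleaf q hqQ
    have e1 : s = s' := hs'' s hq.symm
    subst e1
    cases hb : b q with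
    | R => exact absurd hb (hR q)
    | D =>
      obtain ⟨u, hu, huU, -⟩ := h.d q hb
      rw [hs'' u hu] at huU
      exact absurd huU hsU
    | S =>
      obtain ⟨q', hq1, hq2, -⟩ := h.s q hb
      have e2 := hs'' q' hq1
      subst e2
      obtain ⟨t, ht, -, ht'⟩ := hleaf q' hq2
      have e3 := ht' q hq
      subst e3
      exact absurd (card_two hG hq ht' hs'') h2
  · push Not at hA
    by_cases hB : ∃ d, b d = .D ∧ a d = .U
    · exfalso
      have key : ∀ d u, b d = .D → a d = .U → G.Adj d u → a u = .U →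
          (∀ w, G.Adj d w → w ≠ u → a w = .N) → ∀ w, G.Adj d w → w = u := by
        intro d u hd hdU hdu huU hoth w hw
        by_contra hne
        have hwN := hoth w hw hne
        have hwD := h.u d hdU w hw
        obtain ⟨s, hs, hsS⟩ := h.n w hwN
        have hsU := hA s hsS
        obtain ⟨x, -, -, hx⟩ := h.d w hwD
        have e1 : d = x := by
          by_contra hne'
          have := hx d hw.symm hne'
          rw [hdU] at this
          cases this
        have e2 : s = x := by
          by_contra hne'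
          have := hx s hs hne'
          rw [hsU] at this
          cases this
        rw [← e1] at e2
        rw [e2, hd] at hsS
        cases hsS
      obtain ⟨d, hd, hdU⟩ := hB
      obtain ⟨u, hdu, huU, hoth⟩ := h.d d hd
      have huD := h.u d hdU u hdu
      obtain ⟨x, hx, hxU, hx'⟩ := h.d u huD
      have e1 : d = x := by
        by_contra hne
        have := hx' d hdu.symm hne
        rw [hdU] at this
        cases this
      subst e1
      exact h2 (card_two hG hdu (key d u hd hdU hdu huU hoth) (key u d huD huU hx hdU hx'))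
    · push Not at hB
      have hUS : ∀ v, a v = .U → b v = .S := by
        intro v hv
        cases hb : b v with
        | S => rfl
        | D => exact absurd hv (hB v hb)
        | R => exact absurd hb (hR v)
      refine Or.inr ⟨{v | b v = .S}, ?_, ?_⟩
      · intro v hv
        have hv : b v = .S := hv
        have hvU := hA v hv
        obtain ⟨q, hq, hqQ, hq'⟩ := h.s v hv
        obtain ⟨s', hs', -, hs''⟩ := hleaf q hqQ
        have e1 := hs'' v hq.symm
        subst e1
        refine ⟨?_, ?_, q, hq, hs''⟩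
        · intro w hw hw'
          have hw' : b w = .S := hw'
          rw [h.u v hvU w hw] at hw'
          cases hw'
        · by_contra hcon
          push Not at hcon
          refine h2 (card_two hG hq (fun w hw => ?_) hs'')
          by_contra hne
          exact hcon w q hne hw hq
      · intro v hv
        have hv : b v ≠ .S := hv
        have hvD : b v = .D := by
          cases hb : b v with
          | S => exact absurd hb hv
          | D => rfl
          | R => exact absurd hb (hR v)
        obtain ⟨w, hw, hwU, hw'⟩ := h.d v hvD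
        refine ⟨w, ⟨hUS w hwU, hw⟩, ?_⟩
        rintro x ⟨hx, hvx⟩
        have hx : b x = .S := hx
        by_contra hne
        have := hw' x hvx hne
        rw [hA x hx] at this
        cases this

lemma labelling_of_star [Nontrivial V] (hG : G.IsTree) (h : IsStarTree G) :
    ∃ a b, IsLabelling G a b ∧ ∀ v, b v ≠ .R := by
  rcases h with h | ⟨C, hC, hC'⟩
  · rw [Nat.card_eq_two_iff] at h
    obtain ⟨x, y, hxy, hu⟩ := h
    have hall : ∀ v : V, v = x ∨ v = y := by
      intro v
      have : v ∈ ({x, y} : Set V) := hu ▸ Set.mem_univ v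
      simpa using this
    refine ⟨fun _ => .U, fun _ => .D, ⟨fun _ _ _ _ => rfl, fun _ h => by simp at h,
      fun _ h => by simp at h, fun _ h => by simp at h, ?_, fun _ h => by simp at h⟩,
      fun _ h => by simp at h⟩
    intro v _
    obtain ⟨w, hw⟩ := exists_adj hG v
    refine ⟨w, hw, rfl, fun w' hw' hne => ?_⟩
    exfalso
    have h1 := hw.ne
    have h2 := hw'.ne
    rcases hall v with rfl | rfl <;> rcases hall w with rfl | rfl <;>
      rcases hall w' with rfl | rfl <;> simp_all
  · have hl : ∀ v, ∃ w, v ∈ C → G.Adj v w ∧ ∀ w', G.Adj w w' → w' = v := by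
      intro v
      by_cases hv : v ∈ C
      · obtain ⟨-, -, w, hw⟩ := hC v hv
        exact ⟨w, fun _ => hw⟩
      · exact ⟨v, fun h => absurd h hv⟩
    choose l hl using hl
    let a : V → First := fun v => if v ∈ C then .U else if ∃ c ∈ C, v = l c then .Q else .N
    let b : V → Second := fun v => if v ∈ C then .S else .D
    have haU : ∀ v, a v = .U ↔ v ∈ C := by
      intro v
      by_cases h1 : v ∈ C <;> by_cases h2 : (∃ c ∈ C, v = l c) <;> simp [a, h1, h2]
    have haQ : ∀ v, a v = .Q ↔ v ∉ C ∧ ∃ c ∈ C, v = l c := by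
      intro v
      by_cases h1 : v ∈ C <;> by_cases h2 : (∃ c ∈ C, v = l c) <;> simp [a, h1, h2]
    have haN : ∀ v, a v = .N ↔ v ∉ C ∧ ¬ ∃ c ∈ C, v = l c := by
      intro v
      by_cases h1 : v ∈ C <;> by_cases h2 : (∃ c ∈ C, v = l c) <;> simp [a, h1, h2]
    have hbS : ∀ v, b v = .S ↔ v ∈ C := by
      intro v
      by_cases h1 : v ∈ C <;> simp [b, h1]
    have hbD : ∀ v, b v = .D ↔ v ∉ C := by
      intro v
      by_cases h1 : v ∈ C <;> simp [b, h1]
    have hbR : ∀ v, b v ≠ .R := by
      intro v
      by_cases h1 : v ∈ C <;> simp [b, h1]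
    refine ⟨a, b, ⟨?_, ?_, ?_, ?_, ?_, fun v hv => absurd hv (hbR v)⟩, hbR⟩
    · intro v hv w hw
      rw [haU] at hv
      exact (hbD w).2 ((hC v hv).1 w hw)
    · intro v hv
      rw [haQ] at hv
      obtain ⟨hvC, c, hc, rfl⟩ := hv
      obtain ⟨h1, h2⟩ := hl c hc
      exact ⟨c, ⟨h1.symm, (hbS c).2 hc⟩, fun w hw => h2 w hw.1⟩
    · intro v hv
      rw [haN] at hv
      obtain ⟨w, ⟨hw, hvw⟩, -⟩ := hC' v hv.1
      exact ⟨w, hvw, (hbS w).2 hw⟩
    · intro v hv
      rw [hbS] at hv
      obtain ⟨h1, h2⟩ := hl v hv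
      refine ⟨l v, h1, (haQ _).2 ⟨(hC v hv).1 _ h1, v, hv, rfl⟩, ?_⟩
      intro w hw hne
      rw [haN]
      refine ⟨(hC v hv).1 w hw, ?_⟩
      rintro ⟨c, hc, rfl⟩
      have := (hl c hc).2 v hw.symm
      exact hne (by rw [this])
    · intro v hv
      rw [hbD] at hv
      obtain ⟨w, ⟨hw, hvw⟩, huniq⟩ := hC' v hv
      refine ⟨w, hvw, (haU w).2 hw, ?_⟩
      intro x hx hne
      rw [haN]
      refine ⟨fun hxC => hne (huniq x ⟨hxC, hx⟩), ?_⟩
      rintro ⟨c, hc, rfl⟩
      have := (hl c hc).2 v hx.symm
      exact hv (this ▸ hc)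

variable [Fintype V] [Nontrivial V]

lemma chiTD_le_add_two (hG : G.IsTree) : chiTD G ≤ gammaT G + 2 := by
  obtain ⟨S, hS, hc⟩ := exists_min hG
  let col := hG.coloringTwo
  let c : V → {v // v ∈ S} ⊕ Fin 2 := fun v => if h : v ∈ S then Sum.inl ⟨v, h⟩ else Sum.inr (col v)
  have hcS : ∀ v (h : v ∈ S), c v = Sum.inl ⟨v, h⟩ := fun v h => by simp [c, h]
  have hcS' : ∀ v (h : v ∉ S), c v = Sum.inr (col v) := fun v h => by simp [c, h]
  have := chiTD_le_card (G := G) c ?_ ?_
  · rw [Fintype.card_sum, Fintype.card_fin, Fintype.card_coe, hc] at this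
    exact this
  · intro u v huv heq
    by_cases hu : u ∈ S <;> by_cases hv : v ∈ S
    · rw [hcS u hu, hcS v hv] at heq
      simp only [Sum.inl.injEq, Subtype.mk.injEq] at heq
      exact huv.ne heq
    · rw [hcS u hu, hcS' v hv] at heq
      simp at heq
    · rw [hcS' u hu, hcS v hv] at heq
      simp at heq
    · rw [hcS' u hu, hcS' v hv] at heq
      simp only [Sum.inr.injEq] at heq
      exact col.valid huv heq
  · intro v
    obtain ⟨s, hs, h⟩ := hS v
    refine ⟨Sum.inl ⟨s, hs⟩, ⟨s, hcS s hs⟩, fun w hw => ?_⟩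
    by_cases hwS : w ∈ S
    · rw [hcS w hwS] at hw
      simp only [Sum.inl.injEq, Subtype.mk.injEq] at hw
      rw [hw]
      exact h
    · rw [hcS' w hwS] at hw
      simp at hw

lemma exists_colouring (hG : G.IsTree) : ∃ c : V → Fin (chiTD G), TDColoring G c := by
  have hne : {k | ∃ c : V → Fin k, TDColoring G c}.Nonempty := by
    by_contra hcon
    rw [Set.not_nonempty_iff_eq_empty] at hcon
    -- every vertex its own colour
    have : Fintype.card V ∈ {k | ∃ c : V → Fin k, TDColoring G c} := by
      refine ⟨Fintype.equivFin V, ?_, ?_⟩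
      · intro u v h
        simpa using h.ne
      · intro v
        obtain ⟨w, hw⟩ := exists_adj hG v
        exact ⟨Fintype.equivFin V w, ⟨w, rfl⟩, fun x hx => by simpa using (by simpa using hx : x = w) ▸ hw⟩
    rw [hcon] at this
    exact this
  exact Nat.sInf_mem hne

lemma gammaT_le_chiTD (hG : G.IsTree) : gammaT G ≤ chiTD G := by
  obtain ⟨c, hc⟩ := exists_colouring hG
  choose f hf1 hf2 using hc.2
  refine (gammaT_le_of_colouring hf1 hf2).trans ?_
  simpa using card_le_univ ((univ : Finset V).image f)

theorem chi_le_succ_iff (hG : G.IsTree) :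
    chiTD G ≤ gammaT G + 1 ↔ ∃ a b, IsLabelling G a b := by
  constructor
  · intro h
    obtain ⟨c, hc⟩ := exists_colouring hG
    obtain ⟨S, hS, hR, -⟩ := good_of_colouring hG hc h
    obtain ⟨a, b, hab, -⟩ := labelling_of_good hG hS hR
    exact ⟨a, b, hab⟩
  · rintro ⟨a, b, h⟩
    exact (chiTD_le_of_labelling hG h).1

theorem chi_eq_iff (hG : G.IsTree) : chiTD G = gammaT G ↔ IsStarTree G := by
  constructor
  · intro h
    obtain ⟨c, hc⟩ := exists_colouring hG
    obtain ⟨S, hS, hR, hR'⟩ := good_of_colouring hG hc (by omega)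
    obtain ⟨a, b, hab, hb⟩ := labelling_of_good hG hS hR
    exact star_of_labelling hG hab
      (fun v hv => hR' (by omega) v (hb v hv).1 (hb v hv).2)
  · intro h
    obtain ⟨a, b, hab, hb⟩ := labelling_of_star hG h
    exact le_antisymm ((chiTD_le_of_labelling hG hab).2 hb) (gammaT_le_chiTD hG)

end stars

/-- **Theorem.** Let `T` be a finite tree with at least two vertices.

(1) `χ_td(T) = γ_t(T) + 1` if and only if `T` has labels which satisfy the local rules and is not in
Henning's family.

(2) `χ_td(T) = γ_t(T)` if and only if `T` is in Henning's family (Henning 2015).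

(3) `χ_td(T) = γ_t(T) + 2` if and only if `T` has no labels which satisfy the local rules.

(4) There are such labels if and only if there is a set `X` of vertices such that, `U` being the set
of the vertices without neighbour in `X`, `|X| + |U| = γ_t(T)` and the vertices which are neither in
`X` nor adjacent to a vertex of `U` are pairwise not adjacent. -/
theorem result {V : Type*} [Fintype V] [Nontrivial V] (T : SimpleGraph V) (hT : T.IsTree) :
    (chiTD T = gammaT T + 1 ↔ (∃ a b, IsLabelling T a b) ∧ ¬ IsStarTree T) ∧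
    (chiTD T = gammaT T ↔ IsStarTree T) ∧
    (chiTD T = gammaT T + 2 ↔ ¬ ∃ a b, IsLabelling T a b) ∧
    ((∃ a b, IsLabelling T a b) ↔ ∃ X : Finset V, X.card + (Und T X).card = gammaT T ∧
      ∀ v w, v ∉ X → (∀ u ∈ Und T X, ¬ T.Adj v u) → w ∉ X → (∀ u ∈ Und T X, ¬ T.Adj w u) →
        ¬ T.Adj v w) := by
  have h1 := chi_le_succ_iff hT
  have h2 := chi_eq_iff hT
  have h3 := chiTD_le_add_two hT
  have h4 := gammaT_le_chiTD hT
  refine ⟨?_, h2, ?_, ?_⟩
  · rw [← h1, ← h2]
    omega
  · rw [← h1]
    omega
  · rw [← h1]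
    constructor
    · intro h
      obtain ⟨c, hc⟩ := exists_colouring hT
      obtain ⟨X, hX, hR, -⟩ := good_of_colouring hT hc h
      exact ⟨X, le_antisymm hX (gammaT_le_add hT X), hR⟩
    · rintro ⟨X, hX, hR⟩
      obtain ⟨a, b, hab, -⟩ := labelling_of_good hT hX.le hR
      exact (chiTD_le_of_labelling hT hab).1

end Pool.Agent.Results.MP_03797a_co.GammaPlusOne
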